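import Mathlib

namespace Pool.Agent.Results.MP_a407c4_co.Counter

/-- one insertion, deletion or substitution of a single character turns s into t. -/
def Step {α : Type} (s t : List α) : Prop :=
  ∃ (u v : List α) (x y : α), (s = u ++ v ∧ t = u ++ x :: v) ∨ (s = u ++ x :: v ∧ t = u ++ v) ∨
    (s = u ++ x :: v ∧ t = u ++ y :: v)

/-- edit(s,t) ≤ k: at most k single edits turn s into t. -/
inductive EditLE {α : Type} : ℕ → List α → List α → Prop
  | refl (k : ℕ) (s : List α) : EditLE k s s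
  | step {k : ℕ} {s t u : List α} : Step s t → EditLE k t u → EditLE (k + 1) s u

/-- B is (d,r)-guaranteed among strings of length n. -/
def Guaranteed {α : Type} (n d r : ℕ) (B : Set (List α)) : Prop :=
  ∀ s t : List α, s.length = n → t.length = n → EditLE d s t →
    ∃ v ∈ B, v.length = n ∧ EditLE r s v ∧ EditLE r t v

inductive Al : ℕ → List Bool → List Bool → Prop
  | nil (k) : Al (k + 1) [] []
  | del {k a b} (x) : Al k a b → Al (k + 1) (x :: a) b
  | ins {k a b} (x) : Al k a b → Al (k + 1) a (x :: b)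
  | sub {k a b} (x y) : Al k a b → Al (k + 1) (x :: a) (y :: b)
  | keep {k a b} (x) : Al k a b → Al k (x :: a) (x :: b)

lemma Al.mono {k a b} (h : Al k a b) : Al (k + 1) a b := by
  induction h with
  | nil k => exact .nil _
  | del x _ ih => exact .del x ih
  | ins x _ ih => exact .ins x ih
  | sub x y _ ih => exact .sub x y ih
  | keep x _ ih => exact .keep x ih

lemma Al.zero {k a b} (h : Al k a b) : k ≠ 0 := by
  induction h <;> simp_all

lemma Al.self (k : ℕ) (a : List Bool) : Al (k + 1) a a := by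
  induction a with
  | nil => exact .nil k
  | cons x a ih => exact .keep x ih

lemma Al.head {k c b} (h : Al k c b) : ∀ x v, c = x :: v →
    Al (k + 1) v b ∧ ∀ y, Al (k + 1) (y :: v) b := by
  induction h with
  | nil k => simp
  | del x h _ => rintro _ _ ⟨⟩; exact ⟨h.mono.mono, fun y => .del y h.mono⟩
  | ins x _ ih =>
    intro z v e
    exact ⟨.ins x (ih z v e).1, fun y => .ins x ((ih z v e).2 y)⟩
  | sub x y h _ => rintro _ _ ⟨⟩; exact ⟨.ins y h.mono, fun z => .sub z y h.mono⟩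
  | keep x h _ => rintro _ _ ⟨⟩; exact ⟨.ins _ h, fun z => .sub z _ h⟩

lemma Al.under {s t : List Bool} (H : ∀ k b, Al k t b → Al (k + 1) s b) {k c b} (h : Al k c b) :
    ∀ z, c = z :: t → Al (k + 1) (z :: s) b := by
  induction h with
  | nil k => simp
  | del x h _ => rintro _ ⟨⟩; exact .del _ (H _ _ h)
  | ins x _ ih => intro z e; exact .ins x (ih z e)
  | sub x y h _ => rintro _ ⟨⟩; exact .sub _ y (H _ _ h)
  | keep x h _ => rintro _ ⟨⟩; exact .keep _ (H _ _ h)

lemma pre {s t : List Bool} (H : ∀ k b, Al k t b → Al (k + 1) s b) (u : List Bool) :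
    ∀ k b, Al k (u ++ t) b → Al (k + 1) (u ++ s) b := by
  induction u with
  | nil => exact H
  | cons z u ih => exact fun k b h => h.under ih z rfl

lemma toAl {k : ℕ} {s t : List Bool} (h : EditLE k s t) : Al (k + 1) s t := by
  induction h with
  | refl k s => exact .self k s
  | step h _ ih =>
    obtain ⟨u, v, x, y, ⟨rfl, rfl⟩ | ⟨rfl, rfl⟩ | ⟨rfl, rfl⟩⟩ := h
    · exact pre (fun k b h => (h.head x v rfl).1) u _ _ ih
    · exact pre (fun k b h => .del x h) u _ _ ih
    · exact pre (fun k b h => (h.head y v rfl).2 x) u _ _ ih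

lemma EditLE.cons {k : ℕ} {s t : List Bool} (h : EditLE k s t) (z : Bool) :
    EditLE k (z :: s) (z :: t) := by
  induction h with
  | refl k s => exact .refl k _
  | step h _ ih =>
    refine .step ?_ ih
    obtain ⟨u, v, x, y, ⟨rfl, rfl⟩ | ⟨rfl, rfl⟩ | ⟨rfl, rfl⟩⟩ := h
    · exact ⟨z :: u, v, x, y, .inl ⟨rfl, rfl⟩⟩
    · exact ⟨z :: u, v, x, y, .inr (.inl ⟨rfl, rfl⟩)⟩
    · exact ⟨z :: u, v, x, y, .inr (.inr ⟨rfl, rfl⟩)⟩

lemma ofAl {k a b} (h : Al k a b) : ∀ j, k = j + 1 → EditLE j a b := by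
  induction h with
  | nil k => exact fun j _ => .refl j _
  | @del k a b x h ih =>
    rintro _ ⟨⟩
    obtain ⟨j, rfl⟩ := Nat.exists_eq_succ_of_ne_zero h.zero
    exact .step ⟨[], a, x, x, .inr (.inl ⟨rfl, rfl⟩)⟩ (ih j rfl)
  | @ins k a b x h ih =>
    rintro _ ⟨⟩
    obtain ⟨j, rfl⟩ := Nat.exists_eq_succ_of_ne_zero h.zero
    exact .step ⟨[], a, x, x, .inl ⟨rfl, rfl⟩⟩ ((ih j rfl).cons x)
  | @sub k a b x y h ih =>
    rintro _ ⟨⟩
    obtain ⟨j, rfl⟩ := Nat.exists_eq_succ_of_ne_zero h.zero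
    exact .step ⟨[], a, x, y, .inr (.inr ⟨rfl, rfl⟩)⟩ ((ih j rfl).cons y)
  | keep x _ ih => exact fun j e => (ih j e).cons x

lemma i1 (k e y) : Al (k + 1) [] (e :: y) ↔ Al k [] y :=
  ⟨fun h => by cases h; assumption, .ins e⟩

lemma i2 (k x a) : Al (k + 1) (x :: a) [] ↔ Al k a [] :=
  ⟨fun h => by cases h; assumption, .del x⟩

lemma i3 (k x a e y) : Al (k + 1) (x :: a) (e :: y) ↔
    Al k a (e :: y) ∨ Al k (x :: a) y ∨ Al k a y ∨ (x = e ∧ Al (k + 1) a y) := by
  constructor
  · intro h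
    cases h <;> simp [*]
  · rintro (h | h | h | ⟨rfl, h⟩)
    exacts [.del x h, .ins e h, .sub x e h, .keep x h]

def dec : ℕ → ℕ → List Bool
  | 0, _ => []
  | m + 1, i => if 2 ^ m ≤ i then true :: dec m (i - 2 ^ m) else false :: dec m i

lemma surj (y : List Bool) : ∃ i < 2 ^ y.length, dec y.length i = y := by
  induction y with
  | nil => exact ⟨0, by simp, rfl⟩
  | cons e y ih =>
    obtain ⟨i, h1, h2⟩ := ih
    cases e
    · exact ⟨i, by simp [pow_succ]; omega, by simp [dec, h1.not_ge, h2]⟩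
    · exact ⟨2 ^ y.length + i, by simp [pow_succ]; omega, by simp [dec, h2]⟩

lemma len (m : ℕ) : ∀ i, (dec m i).length = m := by
  induction m with
  | zero => intro; rfl
  | succ m ih => intro i; unfold dec; split_ifs <;> simp [ih]

def cat (m A B : ℕ) : ℕ := A ||| B <<< 2 ^ m

def row (P : List Bool → ℕ → ℕ) : List Bool → ℕ → ℕ
  | [], 0 => 1
  | [], m + 1 => cat m (P [] m) (P [] m)
  | _ :: a, 0 => P a 0
  | x :: a, m + 1 => P a (m + 1) ||| cat m (P (x :: a) m) (P (x :: a) m) |||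
      cat m (P a m) (P a m) ||| cond x (cat m 0 (row P a m)) (row P a m)

def S : ℕ → List Bool → ℕ → ℕ
  | 0 => fun _ _ => 0
  | k + 1 => row (S k)

lemma cat_bit (m A B i : ℕ) : (cat m A B).testBit i = true ↔
    A.testBit i = true ∨ (2 ^ m ≤ i ∧ B.testBit (i - 2 ^ m) = true) := by
  simp [cat, Nat.testBit_shiftLeft]

lemma spec (k : ℕ) : ∀ a m i, (S k a m).testBit i = true ↔ i < 2 ^ m ∧ Al k a (dec m i) := by
  induction k with
  | zero => intro a m i; simpa [S] using fun _ h => h.zero rfl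
  | succ k ih =>
    intro a
    induction a with
    | nil =>
      rintro (_ | m) i
      · simpa [S, row, dec, Nat.testBit_one_eq_true_iff_self_eq_zero] using fun _ => Al.nil k
      · have : 2 ^ (m + 1) = 2 ^ m + 2 ^ m := by ring
        simp only [S, row, cat_bit, ih, dec]
        by_cases h : 2 ^ m ≤ i
        · have h2 : i - 2 ^ m < 2 ^ m ↔ i < 2 ^ (m + 1) := by omega
          simp [i1, h, h.not_gt, h2]
        · have h1 : i < 2 ^ m := by omega
          have h2 : i < 2 ^ (m + 1) := by omega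
          simp [i1, h, h1, h2]
    | cons x a iha =>
      rintro (_ | m) i
      · simp [S, row, ih, dec, i2]
      · have : 2 ^ (m + 1) = 2 ^ m + 2 ^ m := by ring
        have iha' : ∀ m i, (row (S k) a m).testBit i = true ↔ i < 2 ^ m ∧ Al (k + 1) a (dec m i) :=
          iha
        simp only [S, row, Nat.testBit_or, Bool.or_eq_true, cat_bit, ih]
        by_cases h : 2 ^ m ≤ i
        · have h2 : i - 2 ^ m < 2 ^ m ↔ i < 2 ^ (m + 1) := by omega
          cases x <;> simp [dec, i3, h, h.not_gt, h2, cat_bit, iha'] <;> tauto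
        · have h1 : i < 2 ^ m := by omega
          have h2 : i < 2 ^ (m + 1) := by omega
          cases x <;> simp [dec, i3, h, h1, h2, cat_bit, iha'] <;> tauto

def X : ℕ := S 5 (dec 8 204) 8 &&& S 5 (dec 8 51) 8

def chk (T : List ℕ) (Y : ℕ) : Bool :=
  T.all fun A => (List.range 256).all fun j =>
    !A.testBit j || A &&& T.getD j 0 &&& Y != 0

lemma ok : chk ((List.range 256).map fun i => S 4 (dec 8 i) 8) (X ^^^ (2 ^ 256 - 1)) = true := by
  decide +kernel

lemma st : (S 5 (dec 8 204) 8).testBit 51 = true := by decide +kernel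

theorem result : ¬ ∀ (α : Type) [Fintype α], 1 < Fintype.card α → ∀ n r : ℕ, 1 ≤ n → 1 ≤ r →
    ∀ B : Set (List α), (∀ v ∈ B, v.length = n) → Guaranteed n r r B →
      Guaranteed n (r + 1) (r + 1) B := by
  intro h
  suffices g : Guaranteed 8 3 3
      {v | v.length = 8 ∧ ¬ (EditLE 4 (dec 8 204) v ∧ EditLE 4 (dec 8 51) v)} by
    obtain ⟨v, ⟨-, h1⟩, -, h2⟩ := h Bool (by simp) 8 3 (by simp) (by simp) _ (fun v hv => hv.1) g
      (dec 8 204) (dec 8 51) (len _ _) (len _ _) (ofAl ((spec _ _ _ _).mp st).2 _ rfl)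
    exact h1 h2
  intro s t hs ht e
  obtain ⟨i, i1, i2⟩ := surj s
  obtain ⟨j, j1, j2⟩ := surj t
  rw [hs] at i1 i2
  rw [ht] at j1 j2
  rw [← i2, ← j2] at e ⊢
  have := ok
  simp only [chk, List.all_eq_true, List.mem_map, List.mem_range] at this
  have := this _ ⟨i, i1, rfl⟩ j j1
  rw [(spec _ _ _ _).mpr ⟨j1, toAl e⟩, List.getD_eq_getElem _ _ (by simpa using j1)] at this
  simp only [Bool.not_true, Bool.false_or, bne_iff_ne, List.getElem_map, List.getElem_range] at this
  obtain ⟨l, hl⟩ := Nat.exists_testBit_of_ne_zero this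
  simp only [Nat.testBit_and, Bool.and_eq_true, spec, Nat.testBit_xor,
    Nat.testBit_two_pow_sub_one] at hl
  obtain ⟨⟨⟨l1, l2⟩, -, l3⟩, l4⟩ := hl
  refine ⟨dec 8 l, ⟨len _ _, fun hc => ?_⟩, len _ _, ofAl l2 _ rfl, ofAl l3 _ rfl⟩
  have : X.testBit l = true := by
    rw [X, Nat.testBit_and, (spec _ _ _ _).mpr ⟨l1, toAl hc.1⟩, (spec _ _ _ _).mpr ⟨l1, toAl hc.2⟩]
    rfl
  rw [this, decide_eq_true (show l < 256 from l1)] at l4
  exact absurd l4 (by decide)

end Pool.Agent.Results.MP_a407c4_co.Counter
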